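import Pool.Agent.H8.Sb2

namespace Pool.Agent.Results.MP_5aad23_co.SemiBaxter

open Pool.Agent.H8.Sb

theorem result : ∀ n : ℕ, 1 ≤ n → w210 n = v n :=
  fun n hn => main n hn

end Pool.Agent.Results.MP_5aad23_co.SemiBaxter
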